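import Mathlib
import Pool.Agent.Helper16.BBA0Defs
import Pool.Agent.Helper16.BBProj

set_option autoImplicit false

/-!
Divisors on a projective variety `X` given by a homogeneous prime ideal `I`: the definitions for the
rank bound (Theorem T) of `MP_0b9e0b_ag`.
-/

namespace Pool.Agent.Helper16.GT

open Pool.Agent.Helper16 Pool.Agent.Helper16.BB

variable {K σ : Type} [Field K]

/-- The prime divisors on the variety `X` with homogeneous prime ideal `I`: the homogeneous prime
ideals `P` which are minimal among those that strictly contain `I`, and do not contain all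
variables. -/
structure IsPD (I P : Ideal (MvPolynomial σ K)) : Prop where
  prime : P.IsPrime
  hom : ∀ F ∈ P, ∀ n, MvPolynomial.homogeneousComponent n F ∈ P
  lt : I < P
  proj : ∃ j, MvPolynomial.X j ∉ P
  min : ∀ Q : Ideal (MvPolynomial σ K), Q.IsPrime →
    (∀ F ∈ Q, ∀ n, MvPolynomial.homogeneousComponent n F ∈ Q) → I < Q → Q ≤ P → Q = P

/-- `X` is regular in codimension one: for every prime divisor `P` the maximal ideal of the local
ring of `MvPolynomial σ K ⧸ I` at `P` is generated by one element. -/
def RegOne (I : Ideal (MvPolynomial σ K)) : Prop :=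
  ∀ P, IsPD I P → ∃ π ∈ P, ∀ F ∈ P, ∃ G, G ∉ P ∧ G * F ∈ Ideal.span {π} ⊔ I

/-- The order of vanishing of the form `F` (not in `I`) along the prime divisor `P`: the largest `n`
such that `F` lies in the `n`-th power of the maximal ideal of the local ring at `P`. -/
noncomputable def ordP (I P : Ideal (MvPolynomial σ K)) (F : MvPolynomial σ K) : ℕ :=
  sSup {n | ∃ G, G ∉ P ∧ G * F ∈ P ^ n ⊔ I}

/-- (Weil) divisors on `X`. -/
abbrev Dv (I : Ideal (MvPolynomial σ K)) : Type := {P : Ideal (MvPolynomial σ K) // IsPD I P} →₀ ℤ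

/-- The group of principal divisors: the divisors of the rational functions `F / G`, where `F`, `G`
are forms of the same degree which do not vanish on `X`. -/
noncomputable def Prin (I : Ideal (MvPolynomial σ K)) : AddSubgroup (Dv I) :=
  AddSubgroup.closure {D | ∃ (n : ℕ) (F G : MvPolynomial σ K), F.IsHomogeneous n ∧
    G.IsHomogeneous n ∧ F ∉ I ∧ G ∉ I ∧
    ∀ P, D P = (ordP I P.1 F : ℤ) - (ordP I P.1 G : ℤ)}

/-- The form `F` does not vanish at the point to which the point `x` with coordinates in `N`
specialises at the place `v`. -/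
def NonVan {N : Type} [Field N] [Algebra K N] (v : Place K N) (x : σ → N)
    (F : MvPolynomial σ K) : Prop :=
  ∃ c : N, (∀ j, v.val (c * x j) ≤ 1) ∧ v.val (MvPolynomial.aeval (fun j => c * x j) F) = 1

/-- `F / G` is a local equation of the divisor `n D` at the point to which `x` specialises at the
place `v`, and it has neither a zero nor a pole at `x`. -/
structure LocEq (I : Ideal (MvPolynomial σ K)) (D : Dv I) (n : ℕ) {N : Type} [Field N]
    [Algebra K N] (x : σ → N) (v : Place K N) (F G : MvPolynomial σ K) : Prop where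
  hom : ∃ m, F.IsHomogeneous m ∧ G.IsHomogeneous m
  num : MvPolynomial.aeval x F ≠ 0
  den : MvPolynomial.aeval x G ≠ 0
  eq : ∀ P, (∀ E ∈ P.1, (∃ m, E.IsHomogeneous m) → ¬ NonVan v x E) →
    (n : ℤ) * D P = (ordP I P.1 F : ℤ) - (ordP I P.1 G : ℤ)

/-- The group of numerically trivial divisors. It is generated by the divisors `D` with the
following property: there are a closed subset `V(J)` of `X` of codimension at least two, a form `h`
which does not vanish on `X`, and `n > 0`, such that for every curve on `X` (a point `x` over a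
function field `N` of one variable over `K`) on which `h` does not vanish and which does not meet
`V(J)` the divisor `n D` has local equations at all points of the curve and degree zero on the
curve. -/
noncomputable def NumTriv (I : Ideal (MvPolynomial σ K)) : AddSubgroup (Dv I) :=
  AddSubgroup.closure {D | ∃ (J : Set (MvPolynomial σ K)) (h : MvPolynomial σ K) (n : ℕ),
    (∀ F ∈ J, ∃ m, F.IsHomogeneous m) ∧ (∀ P, IsPD I P → ∃ F ∈ J, F ∉ P) ∧
    (∃ m, h.IsHomogeneous m) ∧ h ∉ I ∧ 0 < n ∧
    ∀ (N : Type) [Field N] [Algebra K N] (x : σ → N), IsFunctionField K N →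
      IsPoint (wOne σ) (I : Set (MvPolynomial σ K)) x → MvPolynomial.aeval x h ≠ 0 →
      (∀ v : Place K N, ∃ F ∈ J, NonVan v x F) →
      ∃ (F G : Place K N → MvPolynomial σ K) (S : Finset (Place K N)),
        (∀ v, LocEq I D n x v (F v) (G v)) ∧
        (∀ v, v.ord (MvPolynomial.aeval x (F v) / MvPolynomial.aeval x (G v)) ≠ 0 → v ∈ S) ∧
        ∑ v ∈ S, v.ord (MvPolynomial.aeval x (F v) / MvPolynomial.aeval x (G v)) *
          (v.deg : ℤ) = 0}

/-- The rank of the group of classes of numerically trivial divisors. -/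
noncomputable def rankNT (I : Ideal (MvPolynomial σ K)) : Cardinal :=
  Module.rank ℤ (NumTriv I ⧸ (Prin I).addSubgroupOf (NumTriv I))

/-- The final statement (Theorem T). -/
def Target : Prop :=
  ∀ (k : Type) [Field k] [Finite k] (σ : Type) [Finite σ]
    (I : Set (MvPolynomial σ (RatFunc k))) (_ : ∀ P ∈ I, ∃ d, P.IsHomogeneous d)
    (_ : (Ideal.span I).IsPrime) (_ : RegOne (Ideal.span I))
    (L : Type) [Field L] [Algebra k L] (j : RatFunc k →ₐ[k] RatFunc L)
    (_ : j RatFunc.X ∉ Set.range (algebraMap L (RatFunc L)))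
    (ξ : σ → RatFunc L) (_ : ξ ≠ 0)
    (_ : ∀ P ∈ I, MvPolynomial.eval₂ (j : RatFunc k →+* RatFunc L) ξ P = 0)
    (_ : ∀ (d : ℕ) (P : MvPolynomial σ (RatFunc k)), P.IsHomogeneous d →
      MvPolynomial.eval₂ (j : RatFunc k →+* RatFunc L) ξ P = 0 → P ∈ Ideal.span I),
    dimA0 (wOne σ) I ≤ rankNT (Ideal.span I)

end Pool.Agent.Helper16.GT
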